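import Pool.Agent.Helper988.AD.Comb
import Pool.Agent.Helper988.AD.Geom

set_option autoImplicit false
open Finset

namespace Pool.Agent.Results.MP_a19305_co.AlternatingUpper

open Pool.Agent.Helper988.AD

lemma sorted {n : ℕ} (T : Finset (Fin n)) (h : T.card = 3) :
    ∃ i j k : Fin n, i < j ∧ j < k ∧ T = {i, j, k} := by
  refine ⟨T.orderEmbOfFin h 0, T.orderEmbOfFin h 1, T.orderEmbOfFin h 2, ?_, ?_, ?_⟩
  · exact (T.orderEmbOfFin h).strictMono (by decide)
  · exact (T.orderEmbOfFin h).strictMono (by decide)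
  · have hr := Finset.range_orderEmbOfFin T h
    ext x
    have : x ∈ T ↔ x ∈ Set.range (T.orderEmbOfFin h) := by rw [hr]; simp
    rw [this]
    simp only [Set.mem_range, mem_insert, mem_singleton]
    constructor
    · rintro ⟨y, rfl⟩
      fin_cases y <;> simp
    · rintro (rfl | rfl | rfl)
      · exact ⟨0, rfl⟩
      · exact ⟨1, rfl⟩
      · exact ⟨2, rfl⟩

lemma upper {n : ℕ} (p : Fin n → E3) (hinj : Function.Injective p) (hp : Alternating p)
    (F : Finset (Finset (Fin n))) (h3 : ∀ T ∈ F, T.card = 3) (hF : AlmostDisjoint p F) :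
    F.card ≤ 2 * n * Nat.clog 2 n := by
  classical
  rcases F.eq_empty_or_nonempty with rfl | ⟨T0, hT0⟩
  · simp
  have hT1 : T0.Nonempty := Finset.card_pos.1 (by rw [h3 T0 hT0]; norm_num)
  have : Nonempty (Fin n) := ⟨hT1.choose⟩
  have hex : ∀ T ∈ F, ∃ i j k : Fin n, i < j ∧ j < k ∧ T = {i, j, k} :=
    fun T hT => sorted T (h3 T hT)
  choose! gi gj gk h1 h2 h4 using hex
  set φ : Finset (Fin n) → ℕ × ℕ × ℕ := fun T => ((gi T : ℕ), (gj T : ℕ), (gk T : ℕ)) with hφ
  have mi : ∀ T ∈ F, gi T ∈ T := fun T hT =>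
    (Finset.ext_iff.1 (h4 T hT) (gi T)).2 (by simp)
  have mj : ∀ T ∈ F, gj T ∈ T := fun T hT =>
    (Finset.ext_iff.1 (h4 T hT) (gj T)).2 (by simp)
  have mk : ∀ T ∈ F, gk T ∈ T := fun T hT =>
    (Finset.ext_iff.1 (h4 T hT) (gk T)).2 (by simp)
  have hφinj : Set.InjOn φ F := by
    intro T hT T' hT' h
    simp only [hφ, Prod.mk.injEq] at h
    rw [h4 T hT, h4 T' hT', Fin.ext h.1, Fin.ext h.2.1, Fin.ext h.2.2]
  rw [← Finset.card_image_of_injOn hφinj]
  apply fam_bound
  · refine ⟨?_, ?_, ?_, ?_, ?_⟩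
    · intro q hq
      obtain ⟨T, hT, rfl⟩ := mem_image.1 hq
      exact ⟨h1 T hT, h2 T hT⟩
    · intro q hq q' hq' e1 e2
      obtain ⟨T, hT, rfl⟩ := mem_image.1 hq
      obtain ⟨T', hT', rfl⟩ := mem_image.1 hq'
      have e1' : gi T = gi T' := Fin.ext e1
      have e2' : gj T = gj T' := Fin.ext e2
      have := share p hinj F hF T T' hT hT' (gi T) (gj T) (h1 T hT).ne (mi T hT)
        (e1' ▸ mi T' hT') (mj T hT) (e2' ▸ mj T' hT')
      rw [this]
    · intro q hq q' hq' e1 e2
      obtain ⟨T, hT, rfl⟩ := mem_image.1 hq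
      obtain ⟨T', hT', rfl⟩ := mem_image.1 hq'
      have e1' : gj T = gj T' := Fin.ext e1
      have e2' : gk T = gk T' := Fin.ext e2
      have := share p hinj F hF T T' hT hT' (gj T) (gk T) (h2 T hT).ne (mj T hT)
        (e1' ▸ mj T' hT') (mk T hT) (e2' ▸ mk T' hT')
      rw [this]
    · intro q hq q' hq' hc
      obtain ⟨T, hT, rfl⟩ := mem_image.1 hq
      obtain ⟨T', hT', rfl⟩ := mem_image.1 hq'
      obtain ⟨c1, c2, c3, c4⟩ := hc
      exact no_cross p hp F hF (gi T) (gi T') (gj T) (gj T') (gk T) c1 c2 c3 c4 T'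
        (by rw [← h4 T hT]; exact hT) hT' (mi T' hT') (mj T' hT')
    · intro q hq q' hq' hc
      obtain ⟨T, hT, rfl⟩ := mem_image.1 hq
      obtain ⟨T', hT', rfl⟩ := mem_image.1 hq'
      obtain ⟨c1, c2, c3, c4⟩ := hc
      exact no_cross p hp F hF (gi T) (gj T') (gj T) (gk T') (gk T) c1 c2 c3 c4 T'
        (by rw [← h4 T hT]; exact hT) hT' (mj T' hT') (mk T' hT')
  · intro q hq
    obtain ⟨T, hT, rfl⟩ := mem_image.1 hq
    exact (gk T).isLt

/-- If every quadruple of the points `p 0, ..., p (n-1)` of three-space (in this order) is positively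
oriented, then an almost disjoint family of triangles spanned by them has at most
`2 n ⌈log₂ n⌉` members. Points on the moment curve have this property. -/
theorem result :
    (∀ (n : ℕ) (p : Fin n → E3), Function.Injective p → Alternating p →
      ∀ F : Finset (Finset (Fin n)), (∀ T ∈ F, T.card = 3) → AlmostDisjoint p F →
        F.card ≤ 2 * n * Nat.clog 2 n) ∧
    (∀ (n : ℕ) (t : Fin n → ℝ), StrictMono t →
      Alternating (fun i => (!₂[t i, t i ^ 2, t i ^ 3] : E3))) :=
  ⟨fun _ p hinj hp F h3 hF => upper p hinj hp F h3 hF, fun _ t ht => moment t ht⟩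

end Pool.Agent.Results.MP_a19305_co.AlternatingUpper
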